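import Pool.Agent.H484.AL.Stm

/-! # AL-CNTI: counting the b in a given cylinder -/

namespace Pool.Agent.H484.AL

open Finset
open scoped Classical

theorem cnti_le : ∀ (w : List ℕ), (∀ c ∈ w, 1 ≤ c) →
    (pp w).1 ≤ (qq w).1 ∧ (pp w).1 + (pp w).2 ≤ (qq w).1 + (qq w).2
  | [], _ => by simp [qq, pp]
  | c :: w, h => by
      have h1 := cnti_le w (fun x hx => h x (by simp [hx]))
      have h2 := h c (by simp)
      obtain ⟨k, rfl⟩ := Nat.exists_eq_add_of_le' h2
      simp only [qq, pp]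
      constructor
      · nlinarith [h1.1, h1.2, Nat.mul_le_mul_left k h1.1]
      · nlinarith [h1.1, h1.2, Nat.mul_le_mul_left k h1.1]

/-- the end points of the cylinder -/
theorem cnti_end (w : List ℕ) (hw : ∀ c ∈ w, 1 ≤ c) : ∃ lo hi : ℝ, 0 ≤ lo ∧ hi ≤ 1 ∧
    hi - lo = len w ∧ ∀ β : ℝ, lo < β → β < hi → InI w β := by
  have hq : (1 : ℝ) ≤ ((qq w).1 : ℝ) := by exact_mod_cast qq_pos w hw
  have hq' : (0 : ℝ) ≤ ((qq w).2 : ℝ) := Nat.cast_nonneg _
  have hp : (0 : ℝ) ≤ ((pp w).1 : ℝ) := Nat.cast_nonneg _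
  have hp' : (0 : ℝ) ≤ ((pp w).2 : ℝ) := Nat.cast_nonneg _
  have h1 : ((pp w).1 : ℝ) ≤ ((qq w).1 : ℝ) := by exact_mod_cast (cnti_le w hw).1
  have h2 : ((pp w).1 : ℝ) + ((pp w).2 : ℝ) ≤ ((qq w).1 : ℝ) + ((qq w).2 : ℝ) := by
    exact_mod_cast (cnti_le w hw).2
  have hd : (((pp w).1 : ℝ) * ((qq w).2 : ℝ) - ((pp w).2 : ℝ) * ((qq w).1 : ℝ)) ^ 2 = 1 := by
    exact_mod_cast det_pq w
  unfold InI len
  generalize ((qq w).1 : ℝ) = q at *
  generalize ((qq w).2 : ℝ) = q' at *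
  generalize ((pp w).1 : ℝ) = p at *
  generalize ((pp w).2 : ℝ) = p' at *
  have q0 : 0 < q := by linarith
  have q1 : 0 < q + q' := by linarith
  have hd' : (p * q' - p' * q - 1) * (p * q' - p' * q + 1) = 0 := by linear_combination hd
  rcases mul_eq_zero.1 hd' with hd | hd
  · -- the determinant is `1`
    refine ⟨(p + p') / (q + q'), p / q, by positivity, ?_, ?_, ?_⟩
    · rw [div_le_one q0]
      exact h1
    · rw [div_sub_div _ _ q0.ne' q1.ne', div_eq_div_iff (by positivity) (by positivity)]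
      linear_combination (q * (q + q')) * hd
    · intro β hl hh
      rw [div_lt_iff₀ q1] at hl
      rw [lt_div_iff₀ q0] at hh
      have h3 : p' - β * q' < 0 := by nlinarith
      refine ⟨(β * q - p) / (p' - β * q'), ?_, ?_, ?_⟩
      · exact div_pos_of_neg_of_neg (by linarith) h3
      · rw [div_lt_one_of_neg h3]
        linarith
      · have h4 : (p' - β * q') ≠ 0 := h3.ne
        field_simp
        ring
  · refine ⟨p / q, (p + p') / (q + q'), by positivity, ?_, ?_, ?_⟩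
    · rw [div_le_one q1]
      exact h2
    · rw [div_sub_div _ _ q1.ne' q0.ne', div_eq_div_iff (by positivity) (by positivity)]
      linear_combination -(q * (q + q')) * hd
    · intro β hl hh
      rw [div_lt_iff₀ q0] at hl
      rw [lt_div_iff₀ q1] at hh
      have h3 : 0 < p' - β * q' := by nlinarith
      refine ⟨(β * q - p) / (p' - β * q'), ?_, ?_, ?_⟩
      · exact div_pos (by linarith) h3
      · rw [div_lt_one h3]
        linarith
      · have h4 : (p' - β * q') ≠ 0 := h3.ne'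
        field_simp
        ring

theorem t_CNTI (hINTV : S_INTV) : S_CNTI := by
  intro g M a0 α w hg hM hco hw
  obtain ⟨lo, hi, hlo, hhi, hlen, hβ⟩ := cnti_end w hw
  have hM0 : (0 : ℝ) < (M : ℝ) := by exact_mod_cast hM
  have hlp : 0 < len w := by
    unfold len
    have hq : (1 : ℝ) ≤ ((qq w).1 : ℝ) := by exact_mod_cast qq_pos w hw
    have hq' : (0 : ℝ) ≤ ((qq w).2 : ℝ) := Nat.cast_nonneg _
    positivity
  have hhp : 0 < hi := by linarith
  set A := ⌊(M : ℝ) * lo⌋₊ with hA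
  set U := ⌈(M : ℝ) * hi⌉₊ - 1 with hU
  have hc1 : 1 ≤ ⌈(M : ℝ) * hi⌉₊ := Nat.one_le_iff_ne_zero.2 (by
    have := Nat.ceil_pos.2 (mul_pos hM0 hhp)
    omega)
  have hA1 : (A : ℝ) ≤ (M : ℝ) * lo := Nat.floor_le (by positivity)
  have hA2 : (M : ℝ) * lo < (A : ℝ) + 1 := Nat.lt_floor_add_one _
  have hU0 : (U : ℝ) = (⌈(M : ℝ) * hi⌉₊ : ℝ) - 1 := by
    rw [hU, Nat.cast_sub hc1, Nat.cast_one]
  have hU1 : (M : ℝ) * hi - 1 ≤ (U : ℝ) := by
    have := Nat.le_ceil ((M : ℝ) * hi)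
    linarith
  have hU2 : (U : ℝ) < (M : ℝ) * hi := by
    have := Nat.ceil_lt_add_one (mul_pos hM0 hhp).le
    linarith
  have hMh : (M : ℝ) * hi ≤ (M : ℝ) := by nlinarith
  have hUM : U < M := by
    have : (U : ℝ) < (M : ℝ) := lt_of_lt_of_le hU2 hMh
    exact_mod_cast this
  have h := (hINTV M g α a0 A (U - A) hM hco (by omega)).2
  have hgcd := Nat.gcd_le_left M (show 0 < g by omega)
  have hcard : ((range M).filter (fun b => ∃ k : ℕ, A < k ∧ k ≤ A + (U - A) ∧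
      M ∣ a0 * k + α + g * b)).card ≤ ((range M).filter (fun b => ∃ y : ℕ, y < M ∧
      M ∣ a0 * y + α + g * b ∧ InI w ((y : ℝ) / (M : ℝ)))).card := by
    apply Finset.card_le_card
    intro b hb
    rw [Finset.mem_filter] at hb ⊢
    obtain ⟨hb, k, hk1, hk2, hk3⟩ := hb
    have hkU : k ≤ U := by omega
    refine ⟨hb, k, by omega, hk3, hβ _ ?_ ?_⟩
    · rw [lt_div_iff₀ hM0]
      have : (A : ℝ) + 1 ≤ (k : ℝ) := by exact_mod_cast hk1
      linarith
    · rw [div_lt_iff₀ hM0]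
      have : (k : ℝ) ≤ (U : ℝ) := by exact_mod_cast hkU
      linarith
  have h3 : U - A ≤ ((range M).filter (fun b => ∃ y : ℕ, y < M ∧
      M ∣ a0 * y + α + g * b ∧ InI w ((y : ℝ) / (M : ℝ)))).card + g := by omega
  have h4 : (U : ℝ) ≤ (A : ℝ) + ((((range M).filter (fun b => ∃ y : ℕ, y < M ∧
      M ∣ a0 * y + α + g * b ∧ InI w ((y : ℝ) / (M : ℝ)))).card : ℝ) + (g : ℝ)) := by
    have h5 : U ≤ A + (((range M).filter (fun b => ∃ y : ℕ, y < M ∧
      M ∣ a0 * y + α + g * b ∧ InI w ((y : ℝ) / (M : ℝ)))).card + g) := by omega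
    exact_mod_cast h5
  have h5 : (M : ℝ) * len w = (M : ℝ) * hi - (M : ℝ) * lo := by rw [← hlen]; ring
  rw [h5]
  linarith

end Pool.Agent.H484.AL
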